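import Mathlib
import Pool.Agent.LawsFI.Core
import Pool.Agent.LawsFL.Hyp
import Pool.Agent.LawsFL.Hyp2

set_option autoImplicit false
set_option linter.unusedSectionVars false
set_option linter.unusedVariables false

/-!
# The wreath product `F_p^n wr F_p^n` and its moments
-/

namespace Pool.Agent.LawsFL

open Pool.Agent.LawsFI (F cm map_cm)

@[ext] structure WT (p n : ℕ) where
  g : Fin n → (Fin n → ZMod p) → ZMod p
  x : Fin n → ZMod p

namespace WT

variable {p n : ℕ}

instance : Mul (WT p n) := ⟨fun s t => ⟨fun i e => s.g i e + t.g i (e - s.x), s.x + t.x⟩⟩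
instance : One (WT p n) := ⟨⟨fun _ _ => 0, 0⟩⟩
instance : Inv (WT p n) := ⟨fun s => ⟨fun i e => - s.g i (e + s.x), - s.x⟩⟩

theorem mul_g (s t : WT p n) (i : Fin n) (e : Fin n → ZMod p) :
    (s * t).g i e = s.g i e + t.g i (e - s.x) := rfl
theorem mul_x (s t : WT p n) : (s * t).x = s.x + t.x := rfl
theorem one_g (i : Fin n) (e : Fin n → ZMod p) : (1 : WT p n).g i e = 0 := rfl
theorem one_x : (1 : WT p n).x = 0 := rfl
theorem inv_g (s : WT p n) (i : Fin n) (e : Fin n → ZMod p) :
    (s⁻¹).g i e = - s.g i (e + s.x) := rfl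
theorem inv_x (s : WT p n) : (s⁻¹).x = - s.x := rfl

instance : Group (WT p n) := Group.ofLeftAxioms
  (by
    intro a b c
    ext i e
    · simp only [mul_g, mul_x, sub_sub, add_assoc]
    · simp only [mul_x, add_assoc])
  (by
    intro a
    ext i e
    · simp only [mul_g, one_g, one_x, sub_zero, zero_add]
    · simp only [mul_x, one_x, zero_add])
  (by
    intro a
    ext i e
    · simp only [mul_g, inv_g, one_g, inv_x, sub_neg_eq_add, neg_add_cancel]
    · simp only [mul_x, inv_x, one_x, neg_add_cancel])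

theorem pow_x (s : WT p n) (k : ℕ) : (s ^ k).x = k • s.x := by
  induction k with
  | zero => rw [pow_zero, zero_smul, one_x]
  | succ k ih => rw [pow_succ, mul_x, ih, succ_nsmul]

theorem pow_g (s : WT p n) (k : ℕ) (i : Fin n) (e : Fin n → ZMod p) :
    (s ^ k).g i e = ∑ t ∈ Finset.range k, s.g i (e - t • s.x) := by
  induction k with
  | zero => rw [pow_zero, one_g]; simp
  | succ k ih => rw [pow_succ, mul_g, ih, Finset.sum_range_succ, pow_x]

theorem smul_p (x : Fin n → ZMod p) : p • x = 0 := by
  funext i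
  simp

theorem powp_x (s : WT p n) : (s ^ p).x = 0 := by
  rw [pow_x, smul_p]

theorem cm_x (s t : WT p n) : (cm s t).x = 0 := by
  simp only [cm, mul_x, inv_x]
  abel

theorem cm_g {s : WT p n} (hs : s.x = 0) (t : WT p n) (i : Fin n) (e : Fin n → ZMod p) :
    (cm s t).g i e = s.g i e - s.g i (e - t.x) := by
  simp only [cm, mul_x, inv_x, mul_g, inv_g, hs]
  have e1 : e - 0 = e := sub_zero e
  have e2 : e - (0 + t.x) + 0 = e - t.x := by abel
  have e3 : e - (0 + t.x + -0) + t.x = e := by abel
  rw [e1, e2, e3]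
  ring

theorem comm_of {s t : WT p n} (hs : s.x = 0) (ht : t.x = 0) : s * t = t * s := by
  ext i e
  · rw [mul_g, mul_g, hs, ht, sub_zero, add_comm]
  · rw [mul_x, mul_x, add_comm]

theorem powp_of {s : WT p n} (hs : s.x = 0) : s ^ p = 1 := by
  ext i e
  · rw [pow_g, hs, one_g]
    simp
  · rw [powp_x, one_x]

theorem cm_comm_of {s t : WT p n} (hs : s.x = 0) (ht : t.x = 0) : cm s t = 1 := by
  unfold cm
  rw [comm_of hs ht]; group

end WT

open WT

/-! ### sums over the prime field -/

section star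

variable {p : ℕ} [hp : Fact p.Prime]

theorem sum_range_zmod (f : ZMod p → ZMod p) :
    ∑ t ∈ Finset.range p, f (t : ZMod p) = ∑ t : ZMod p, f t := by
  refine Finset.sum_nbij' (fun t => (t : ZMod p)) (fun t => t.val) ?_ ?_ ?_ ?_ ?_
  · intro t _; exact Finset.mem_univ _
  · intro t _; exact Finset.mem_range.mpr (ZMod.val_lt t)
  · intro t ht
    exact ZMod.val_cast_of_lt (Finset.mem_range.mp ht)
  · intro t _
    exact ZMod.natCast_zmod_val t
  · intro t _; rfl

theorem sum_pow_lt {k : ℕ} (hk : k < p - 1) : ∑ t : ZMod p, t ^ k = 0 := by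
  apply FiniteField.sum_pow_lt_card_sub_one
  rw [ZMod.card]; exact hk

theorem sum_pow_top : ∑ t : ZMod p, t ^ (p - 1) = -1 := by
  have h1 : ∀ t : ZMod p, t ^ (p - 1) = 1 - (if t = 0 then 1 else 0) := by
    intro t
    have hp1 : p - 1 ≠ 0 := by have := hp.out.two_le; omega
    by_cases ht : t = 0
    · rw [ht, zero_pow hp1, if_pos rfl, sub_self]
    · rw [if_neg ht, sub_zero]
      exact ZMod.pow_card_sub_one_eq_one ht
  simp only [h1]
  rw [Finset.sum_sub_distrib, Finset.sum_const, Finset.card_univ, ZMod.card, nsmul_eq_mul,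
    CharP.cast_eq_zero, zero_mul, Finset.sum_ite_eq' Finset.univ (0 : ZMod p) (fun _ => (1 : ZMod p)),
    if_pos (Finset.mem_univ _), zero_sub]

theorem star (a x y : ZMod p → ZMod p) :
    ∑ t : ZMod p, (∏ c, (t * x c + a c) - ∏ c, (t * x c + (a c + y c))) =
      ∑ e, ∏ c, (if c = e then y c else x c) := by
  have e1 : ∀ (t : ZMod p) (b : ZMod p → ZMod p), ∏ c, (t * x c + b c) =
      ∑ S ∈ (Finset.univ : Finset (ZMod p)).powerset,
        t ^ S.card * ((∏ c ∈ S, x c) * ∏ c ∈ Finset.univ \ S, b c) := by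
    intro t b
    rw [Finset.prod_add]
    apply Finset.sum_congr rfl
    intro S _
    rw [Finset.prod_mul_distrib, Finset.prod_const, mul_assoc]
  have e2 : ∀ t : ZMod p, (∏ c, (t * x c + a c) - ∏ c, (t * x c + (a c + y c))) =
      ∑ S ∈ (Finset.univ : Finset (ZMod p)).powerset,
        t ^ S.card * ((∏ c ∈ S, x c) * (∏ c ∈ Finset.univ \ S, a c -
          ∏ c ∈ Finset.univ \ S, (a c + y c))) := by
    intro t
    rw [e1, e1, ← Finset.sum_sub_distrib]
    apply Finset.sum_congr rfl
    intro S _
    ring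
  simp only [e2]
  rw [Finset.sum_comm]
  simp only [← Finset.sum_mul]
  symm
  apply Finset.sum_of_injOn (fun e : ZMod p => Finset.univ.erase e)
  · intro e _ e' _ h
    by_contra hne
    have : e ∈ Finset.univ.erase e' := Finset.mem_erase.mpr ⟨hne, Finset.mem_univ _⟩
    have h' : Finset.univ.erase e = Finset.univ.erase e' := h
    rw [← h'] at this
    exact Finset.notMem_erase _ _ this
  · intro e _
    exact Finset.mem_coe.mpr (Finset.mem_powerset.mpr (Finset.subset_univ _))
  · intro S _ hS
    by_cases h1 : S = Finset.univ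
    · rw [h1]
      simp
    · have h2 : S.card < p := by
        have := Finset.card_lt_card (Finset.ssubset_univ_iff.mpr h1)
        rwa [Finset.card_univ, ZMod.card] at this
      have h3 : S.card ≠ p - 1 := by
        intro h
        have h4 : (Finset.univ \ S).card = 1 := by
          rw [Finset.card_sdiff_of_subset (Finset.subset_univ _), Finset.card_univ, ZMod.card]
          omega
        obtain ⟨e, he⟩ := Finset.card_eq_one.mp h4
        apply hS
        refine ⟨e, Finset.mem_coe.mpr (Finset.mem_univ _), ?_⟩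
        change Finset.univ.erase e = S
        rw [← Finset.sdiff_singleton_eq_erase, ← he]
        simp
      rw [sum_pow_lt (by omega), zero_mul]
  · intro e _
    change _ = (∑ t : ZMod p, t ^ (Finset.univ.erase e).card) * ((∏ c ∈ Finset.univ.erase e, x c) *
      (∏ c ∈ Finset.univ \ Finset.univ.erase e, a c -
        ∏ c ∈ Finset.univ \ Finset.univ.erase e, (a c + y c)))
    have h1 : (Finset.univ : Finset (ZMod p)) \ Finset.univ.erase e = {e} := by
      ext c; simp
    rw [h1, Finset.card_erase_of_mem (Finset.mem_univ _), Finset.card_univ, ZMod.card, sum_pow_top,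
      Finset.prod_singleton, Finset.prod_singleton,
      ← Finset.mul_prod_erase Finset.univ _ (Finset.mem_univ e), if_pos rfl]
    rw [Finset.prod_congr rfl (g := fun c => x c)
      (fun c hc => if_neg (Finset.ne_of_mem_erase hc))]
    ring

end star

/-! ### moments -/

section moments

variable {p : ℕ} [hp : Fact p.Prime] {n : ℕ}

/-- moments -/
def mom (s : WT p n) (i : Fin n) (h : (Fin n → ZMod p) → ZMod p) : ZMod p :=
  ∑ e, s.g i e * h e

/-- the tensor of top moments -/
def raw (s : WT p n) (i : Fin n) : Ten p n := fun j => mom s i (fun e => ∏ c, e (j c))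

/-- `[z^p, y]` -/
def uv {T : Type*} [Group T] (p : ℕ) (z y : T) : T := cm (z ^ p) y

theorem map_uv {T T' : Type*} [Group T] [Group T'] (f : T →* T') (p : ℕ) (z y : T) :
    f (uv p z y) = uv p (f z) (f y) := by simp [uv]

theorem uv_x (z y : WT p n) : (uv p z y).x = 0 := cm_x _ _

theorem mom_uv (z y : WT p n) (i : Fin n) (h : (Fin n → ZMod p) → ZMod p) :
    mom (uv p z y) i h = ∑ e, z.g i e *
      ∑ t ∈ Finset.range p, (h (e + t • z.x) - h (e + t • z.x + y.x)) := by
  unfold mom uv
  have e1 : ∀ e, (cm (z ^ p) y).g i e * h e = (z ^ p).g i e * h e -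
      (z ^ p).g i (e - y.x) * h e := by
    intro e
    rw [cm_g (powp_x z)]; ring
  simp only [e1]
  rw [Finset.sum_sub_distrib]
  have e2 : ∑ e, (z ^ p).g i (e - y.x) * h e = ∑ e, (z ^ p).g i e * h (e + y.x) := by
    rw [← Equiv.sum_comp (Equiv.subRight y.x) (fun e => (z ^ p).g i e * h (e + y.x))]
    apply Finset.sum_congr rfl
    intro e _
    simp only [Equiv.subRight_apply, sub_add_cancel]
  rw [e2, ← Finset.sum_sub_distrib]
  have e3 : ∀ e, (z ^ p).g i e * h e - (z ^ p).g i e * h (e + y.x) =
      ∑ t ∈ Finset.range p, z.g i (e - t • z.x) * (h e - h (e + y.x)) := by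
    intro e
    rw [← mul_sub, pow_g, Finset.sum_mul]
  simp only [e3, Finset.mul_sum]
  rw [Finset.sum_comm]
  conv_rhs => rw [Finset.sum_comm]
  apply Finset.sum_congr rfl
  intro t _
  rw [← Equiv.sum_comp (Equiv.subRight (t • z.x))
    (fun e => z.g i e * (h (e + t • z.x) - h (e + t • z.x + y.x)))]
  apply Finset.sum_congr rfl
  intro e _
  simp only [Equiv.subRight_apply, sub_add_cancel]

theorem raw_uv (z y : WT p n) (i : Fin n) (j : ZMod p → Fin n) :
    raw (uv p z y) i j = (∑ e, z.g i e) * wd z.x y.x j := by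
  unfold raw
  rw [mom_uv, Finset.sum_mul]
  apply Finset.sum_congr rfl
  intro e _
  congr 1
  have := star (fun c => e (j c)) (fun c => z.x (j c)) (fun c => y.x (j c))
  unfold wd
  rw [← this, ← sum_range_zmod]
  apply Finset.sum_congr rfl
  intro t _
  congr 1
  · apply Finset.prod_congr rfl
    intro c _
    simp only [Pi.add_apply, Pi.smul_apply]
    rw [nsmul_eq_mul]
    ring
  · apply Finset.prod_congr rfl
    intro c _
    simp only [Pi.add_apply, Pi.smul_apply]
    rw [nsmul_eq_mul]
    ring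

theorem mom_uv_lin (z y : WT p n) (i a : Fin n) : mom (uv p z y) i (fun e => e a) = 0 := by
  rw [mom_uv]
  apply Finset.sum_eq_zero
  intro e _
  have : ∑ t ∈ Finset.range p, ((e + t • z.x) a - (e + t • z.x + y.x) a) = 0 := by
    have h : ∀ t : ℕ, ((e + t • z.x) a - (e + t • z.x + y.x) a) = - y.x a := by
      intro t
      simp only [Pi.add_apply]; ring
    simp only [h]
    rw [Finset.sum_const, Finset.card_range, nsmul_eq_mul, CharP.cast_eq_zero, zero_mul]
  rw [this, mul_zero]

/-- projection onto the rotation invariant tensors with zero diagonal -/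
noncomputable def prj (A : Ten p n) : Ten p n := fun j => ∑ d, chi (rot d j) * A (rot d j)

theorem prj_SZ (A : Ten p n) : SZ (prj A) := by
  constructor
  · intro d j
    unfold prj
    rw [← Equiv.sum_comp (Equiv.addRight d) (fun d => chi (rot d j) * A (rot d j))]
    apply Finset.sum_congr rfl
    intro d' _
    rw [rot_rot]; rfl
  · intro a
    unfold prj
    have : ∀ d : ZMod p, rot d (fun _ : ZMod p => a) = fun _ => a := fun d => rfl
    simp only [this]
    rw [Finset.sum_const, Finset.card_univ, ZMod.card, nsmul_eq_mul, CharP.cast_eq_zero, zero_mul]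

theorem prj_of_SZ {A : Ten p n} (hA : SZ A) (j : ZMod p → Fin n) : prj A j = A j := by
  unfold prj
  simp only [hA.1]
  rw [← Finset.sum_mul]
  by_cases h : ∀ c, j c = j 0
  · have : j = fun _ => j 0 := by funext c; exact h c
    rw [this, hA.2, mul_zero]
  · push Not at h
    obtain ⟨c, hc⟩ := h
    rw [chi_sum (c := c) hc, one_mul]

theorem prj_add (A B : Ten p n) (j : ZMod p → Fin n) :
    prj (fun j => A j + B j) j = prj A j + prj B j := by
  unfold prj
  rw [← Finset.sum_add_distrib]
  apply Finset.sum_congr rfl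
  intro d _
  ring

theorem prj_sum {α : Type} (S : Finset α) (A : α → Ten p n) (j : ZMod p → Fin n) :
    prj (fun j => ∑ k ∈ S, A k j) j = ∑ k ∈ S, prj (A k) j := by
  unfold prj
  rw [Finset.sum_comm]
  apply Finset.sum_congr rfl
  intro d _
  rw [Finset.mul_sum]

/-- adding to the first component -/
def shg (s : WT p n) (h : Fin n → (Fin n → ZMod p) → ZMod p) : WT p n :=
  ⟨fun i e => s.g i e + h i e, s.x⟩

theorem mom_shg {α : Type} (s : WT p n) (S : Finset α) (u : α → WT p n) (i : Fin n)
    (h : (Fin n → ZMod p) → ZMod p) :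
    mom (shg s (fun i e => ∑ k ∈ S, (u k).g i e)) i h = mom s i h + ∑ k ∈ S, mom (u k) i h := by
  unfold mom shg
  simp only [add_mul, Finset.sum_add_distrib, Finset.sum_mul]
  congr 1
  rw [Finset.sum_comm]

/-- the coefficient tensors of an element -/
noncomputable def Cm (s : WT p n) (i : Fin n) : Ten p n := prj (raw s i)

theorem Cm_shg {q : ℕ} (s : WT p n) (S : Finset (Fin (q+1))) (z y : Fin (q+1) → WT p n)
    (i : Fin n) (j : ZMod p → Fin n) :
    Cm (shg s (fun i e => ∑ k ∈ S, (uv p (z k) (y k)).g i e)) i j =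
      Cm s i j + ∑ k ∈ S, (∑ e, (z k).g i e) * wd (z k).x (y k).x j := by
  unfold Cm
  have e1 : raw (shg s (fun i e => ∑ k ∈ S, (uv p (z k) (y k)).g i e)) i =
      fun j => raw s i j + ∑ k ∈ S, (∑ e, (z k).g i e) * wd (z k).x (y k).x j := by
    funext j
    unfold raw
    rw [mom_shg s S (fun k => uv p (z k) (y k))]
    congr 1
    apply Finset.sum_congr rfl
    intro k _
    exact raw_uv _ _ _ _
  rw [e1, prj_add, prj_sum]
  congr 1
  apply Finset.sum_congr rfl
  intro k _
  rw [prj_of_SZ]
  constructor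
  · intro d j
    beta_reduce
    rw [(wd_SZ _ _).1]
  · intro a
    beta_reduce
    rw [(wd_SZ _ _).2, mul_zero]

/-- the support -/
def InD {N : ℕ} (s : WT p (N+1)) : Prop := s.x = 0 ∧ mom s 0 (fun e => e 0) = 0

theorem InD_shg {N : ℕ} {α : Type} {s : WT p (N+1)} (hs : InD s) (S : Finset α)
    (z y : α → WT p (N+1)) : InD (shg s (fun i e => ∑ k ∈ S, (uv p (z k) (y k)).g i e)) := by
  refine ⟨hs.1, ?_⟩
  rw [mom_shg s S (fun k => uv p (z k) (y k)), hs.2, zero_add]
  apply Finset.sum_eq_zero
  intro k _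
  exact mom_uv_lin _ _ _ _

theorem mul_InD_iff {N : ℕ} (s z y : WT p (N+1)) : InD (s * uv p z y) ↔ InD s := by
  have h1 : (s * uv p z y).x = s.x := by rw [mul_x, uv_x, add_zero]
  unfold InD
  rw [h1]
  constructor
  · rintro ⟨h2, h3⟩
    refine ⟨h2, ?_⟩
    rw [← h3]
    have h4 := mom_uv_lin z y (0 : Fin (N+1)) 0
    unfold mom at h4 ⊢
    simp only [mul_g, h2, sub_zero, add_mul, Finset.sum_add_distrib]
    rw [h4, add_zero]
  · rintro ⟨h2, h3⟩
    refine ⟨h2, ?_⟩
    rw [← h3]
    have h4 := mom_uv_lin z y (0 : Fin (N+1)) 0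
    unfold mom at h4 ⊢
    simp only [mul_g, h2, sub_zero, add_mul, Finset.sum_add_distrib]
    rw [h4, add_zero]

end moments

end Pool.Agent.LawsFL
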