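import Mathlib
import Pool.Agent.LawsFI.Core
import Pool.Agent.LawsFL.Grp

set_option autoImplicit false
set_option linter.unusedSectionVars false
set_option linter.unusedVariables false

/-!
# The test group does not satisfy its word
-/

namespace Pool.Agent.LawsFL

open Pool.Agent.LawsFI (F cm map_cm)
open WG

section

variable {p : ℕ} [hp : Fact p.Prime]

/-- the element `(indicator of 0 in slot 0, 0)` -/
def ga (p N : ℕ) : WT p (N+1) := ⟨fun i e => (if i = 0 then 1 else 0) * (if e = 0 then 1 else 0), 0⟩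

/-- the element `(0, first basis vector)` -/
def de (p N : ℕ) : WT p (N+1) := ⟨fun _ _ => 0, Pi.single 0 1⟩

theorem mom_cm (N : ℕ) : mom (cm (ga p N) (de p N)) 0 (fun e => e 0) = -1 := by
  unfold mom
  have e1 : ∀ e : Fin (N+1) → ZMod p, (cm (ga p N) (de p N)).g 0 e * e 0 =
      (if e = 0 then e 0 else 0) - (if e = Pi.single 0 1 then e 0 else 0) := by
    intro e
    rw [WT.cm_g (s := ga p N) rfl]
    have h1 : (ga p N).g 0 e = if e = 0 then 1 else 0 := by simp [ga]
    have h2 : (ga p N).g 0 (e - (de p N).x) = if e = Pi.single 0 1 then 1 else 0 := by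
      simp [ga, de, sub_eq_zero]
    rw [h1, h2]
    split_ifs <;> ring
  simp only [e1]
  rw [Finset.sum_sub_distrib, Finset.sum_ite_eq' Finset.univ, Finset.sum_ite_eq' Finset.univ,
    if_pos (Finset.mem_univ _), if_pos (Finset.mem_univ _)]
  simp

theorem mom_mul {N : ℕ} {s t : WT p (N+1)} (hs : s.x = 0) (h : (Fin (N+1) → ZMod p) → ZMod p) :
    mom (s * t) 0 h = mom s 0 h + mom t 0 h := by
  unfold mom
  rw [← Finset.sum_add_distrib]
  apply Finset.sum_congr rfl
  intro e _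
  rw [WT.mul_g, hs, sub_zero]; ring

theorem GN_not_wrd {N : ℕ} (hN : 1 ≤ N) : ∃ φ : F →* GN p (N+1), φ (wrd p N) ≠ 1 := by
  let z0 : GN p (N+1) := ⟨⟨Phi p N, 1⟩, Phi_mem⟩
  let em : WT p (N+1) → GN p (N+1) := fun t => ⟨⟨0, t⟩, (MM p (N+1)).zero_mem⟩
  let φ : F →* GN p (N+1) := FreeGroup.lift (fun i =>
    if i = 0 then z0 else if i = 1 then em (de p N) else if i = 2 then em (ga p N) else
      if i = 3 then em (de p N) else em (bs N (i - 4)))
  refine ⟨φ, fun hcon => ?_⟩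
  have h0 : ((GN p (N+1)).subtype.comp φ) (wrd p N) = 1 := by
    rw [MonoidHom.comp_apply, hcon, map_one]
  set ψ := (GN p (N+1)).subtype.comp φ with hψ
  rw [map_wrd] at h0
  have hz0 : ψ (FreeGroup.of 0) = ⟨Phi p N, 1⟩ := by simp [hψ, φ, z0]
  have hz1 : ψ (FreeGroup.of 1) = ⟨0, de p N⟩ := by simp [hψ, φ, em]
  have hz2 : ψ (FreeGroup.of 2) = ⟨0, ga p N⟩ := by simp [hψ, φ, em]
  have hz3 : ψ (FreeGroup.of 3) = ⟨0, de p N⟩ := by simp [hψ, φ, em]
  have hx : ∀ k, ψ (FreeGroup.of (4+k)) = ⟨0, bs N k⟩ := by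
    intro k
    have e0 : ¬ (4 + k = 0) := by omega
    have e1 : ¬ (4 + k = 1) := by omega
    have e2 : ¬ (4 + k = 2) := by omega
    have e3 : ¬ (4 + k = 3) := by omega
    simp [hψ, φ, em, e1, e2, e3]
  have h1 := ee_t (fun i => ψ (FreeGroup.of i))
  have h3 := chain_of h1 (uu p (fun k => ψ (FreeGroup.of (4+k))) N) (N+1)
  have h4 : (chain (ee fun i => ψ (FreeGroup.of i))
    (uu p (fun k => ψ (FreeGroup.of (4 + k))) N) (N+1)).f 1 = 0 := by
    rw [h0]; rfl
  rw [h3.2, uu_t] at h4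
  have hX : (fun i => (ψ (FreeGroup.of (4+i))).t) = fun k => bs N k := by
    funext k; rw [hx]
  rw [hX] at h4
  set κ : WT p (N+1) := cm (ga p N) (de p N) with hκ
  have he : (ee fun i => ψ (FreeGroup.of i)).f = dl κ (dl (de p N) (Phi p N)) := by
    unfold ee
    beta_reduce
    rw [hz0, hz1, hz2, hz3]
    have k1 := cm_of (e := (⟨Phi p N, 1⟩ : WG p (WT p (N+1)))) rfl ⟨0, de p N⟩
    have k2 : (cm (⟨0, ga p N⟩ : WG p (WT p (N+1))) ⟨0, de p N⟩).t = κ :=
      map_cm (proj (p := p) (T := WT p (N+1))) _ _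
    have k3 := cm_of k1.1 (cm (⟨0, ga p N⟩ : WG p (WT p (N+1))) ⟨0, de p N⟩)
    rw [k3.2, k1.2, k2]
  rw [he] at h4
  set u := uu p (fun k => bs (p := p) N k) N with hu
  have hux : ∀ i, (u i).x = 0 := uu_x _ _
  have hde : (de p N).x ≠ 0 := by
    intro h
    have := congrFun h 0
    simp [de] at this
  have hκx : κ.x = 0 := WT.cm_x _ _
  have hexp : dl κ (dl (de p N) (Phi p N)) = Phi p N + -(rt (de p N) (Phi p N)) +
      -(rt κ (Phi p N) + -(rt κ (rt (de p N) (Phi p N)))) := by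
    funext s
    simp only [dl, rt, Pi.add_apply, Pi.neg_apply]
    ring
  rw [hexp, dls_add, dls_add, dls_neg, dls_neg, dls_add, dls_neg] at h4
  have Phi_of : ∀ s : WT p (N+1), s.x ≠ 0 → Phi p N s = 0 := by
    intro s hs
    unfold Phi
    rw [if_neg (fun h => hs h.1)]
  have a1 : dls u (N+1) (rt (de p N) (Phi p N)) 1 = 0 := by
    apply dls_supp (P := fun s => s.x = 0)
    · intro s k hs
      rw [WT.mul_x, hs, hux, add_zero]
    · intro s hs
      apply Phi_of
      rw [WT.mul_x, hs, zero_add]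
      exact hde
    · rfl
  have a2 : dls u (N+1) (rt κ (rt (de p N) (Phi p N))) 1 = 0 := by
    apply dls_supp (P := fun s => s.x = 0)
    · intro s k hs
      rw [WT.mul_x, hs, hux, add_zero]
    · intro s hs
      apply Phi_of
      rw [WT.mul_x, WT.mul_x, hs, hκx, zero_add, zero_add]
      exact hde
    · rfl
  have a3 : dls u (N+1) (rt κ (Phi p N)) 1 = 0 := by
    apply dls_supp (P := fun s => InD s)
    · intro s k hs
      exact (mul_InD_iff s _ _).mpr hs
    · intro s hs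
      change Phi p N (s * κ) = 0
      unfold Phi
      rw [if_neg]
      rintro ⟨_, h⟩
      rw [mom_mul hs.1, hs.2, zero_add, hκ, mom_cm] at h
      exact one_ne_zero (neg_eq_zero.mp h)
    · refine ⟨rfl, ?_⟩
      unfold mom
      simp [WT.one_g]
  simp only [Pi.add_apply, Pi.neg_apply, a1, a2, a3, neg_zero, add_zero] at h4
  exact top_value hN h4

/-- the test groups have a normal series of length three with elementary abelian factors -/
theorem GN_series (n : ℕ) : ∃ G₁ G₂ : Subgroup (GN p n), G₁.Normal ∧ G₂.Normal ∧ G₁ ≤ G₂ ∧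
    (∀ x ∈ G₁, ∀ y ∈ G₁, x * y = y * x) ∧ (∀ x ∈ G₁, x ^ p = 1) ∧
    (∀ x ∈ G₂, ∀ y ∈ G₂, x * y * x⁻¹ * y⁻¹ ∈ G₁) ∧ (∀ x ∈ G₂, x ^ p ∈ G₁) ∧
    (∀ x y, x * y * x⁻¹ * y⁻¹ ∈ G₂) ∧ (∀ x, x ^ p ∈ G₂) := by
  let π : GN p n →* WT p n := (proj (p := p) (T := WT p n)).comp (GN p n).subtype
  let ξ : WT p n →* Multiplicative (Fin n → ZMod p) :=
    { toFun := fun s => Multiplicative.ofAdd s.x
      map_one' := rfl
      map_mul' := fun _ _ => rfl }
  have hξ : ∀ s : WT p n, ξ s = 1 ↔ s.x = 0 := fun s => Iff.rfl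
  refine ⟨π.ker, (ξ.comp π).ker, inferInstance, inferInstance, ?_, ?_, ?_, ?_, ?_, ?_, ?_⟩
  · intro x hx
    rw [MonoidHom.mem_ker] at hx ⊢
    rw [MonoidHom.comp_apply, hx, map_one]
  · intro x hx y hy
    apply (GN p n).subtype_injective
    exact WG.comm_of hx hy
  · intro x hx
    apply (GN p n).subtype_injective
    rw [map_pow, map_one]
    exact WG.powp_of hx
  · intro x hx y hy
    rw [MonoidHom.mem_ker]
    have : π (x * y * x⁻¹ * y⁻¹) = cm (π x) (π y) := by simp [cm]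
    rw [this]
    exact WT.cm_comm_of hx hy
  · intro x hx
    rw [MonoidHom.mem_ker, map_pow]
    exact WT.powp_of hx
  · intro x y
    rw [MonoidHom.mem_ker]
    change (π (x * y * x⁻¹ * y⁻¹)).x = 0
    have : π (x * y * x⁻¹ * y⁻¹) = cm (π x) (π y) := by simp [cm]
    rw [this]
    exact WT.cm_x _ _
  · intro x
    rw [MonoidHom.mem_ker]
    change (π (x ^ p)).x = 0
    rw [map_pow]
    exact WT.powp_x _

end

end Pool.Agent.LawsFL
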